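import Pool.Agent.Helper34.SD.Gap

/-!
# Post's tag system (MP_41f897_lc): from a single letter 1 the number of letters 1 is unbounded
-/

set_option autoImplicit false

namespace Pool.Agent.Helper34.SD

open Pool.Agent.Helper34.PT

/-! ## passes which do not stop -/

theorem raw_word (w : List Bool) : ∀ (s : Fin 3) (Z : List Bool), 2 ≤ Z.length →
    run (rsec w s).length ((w ++ Z).drop s) = some ((Z ++ bin (rsec w s)).drop (rext w s)) := by
  induction w with
  | nil => intro s Z _; simp [rsec, rext, bin, run]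
  | cons c w ih =>
    intro s Z hZ
    simp only [rsec, rext, List.cons_append]
    by_cases hs : s = 0
    · subst hs
      rw [if_pos rfl, List.length_append, bin_append, ← List.append_assoc Z]
      have h2 : ((0 : Fin 3) + 2 : Fin 3) = 2 := by decide
      rw [h2]
      have h3 := ih 2 (Z ++ bin [c]) (by rw [List.length_append]; omega)
      have h4 : w ++ (Z ++ bin [c]) = (w ++ Z) ++ bin [c] := by rw [List.append_assoc]
      have h5 : run ([c] : List Bool).length ((c :: (w ++ Z)).drop ((0 : Fin 3) : ℕ)) =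
          some ((w ++ (Z ++ bin [c])).drop ((2 : Fin 3) : ℕ)) := by
        rw [h4]
        have h6 : 2 ≤ (w ++ Z).length := by rw [List.length_append]; omega
        revert h6
        generalize w ++ Z = Y
        intro h6
        match Y with
        | [] => simp at h6
        | [z] => simp at h6
        | z1 :: z2 :: Y => cases c <;> simp [bin, run, step]
      rw [run_add, h5]
      exact h3
    · rw [if_neg hs, List.nil_append]
      have h1 : (c :: (w ++ Z)).drop (s : ℕ) = (w ++ Z).drop ((s + 2 : Fin 3) : ℕ) := by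
        revert hs
        fin_cases s
        · intro hs
          exact absurd rfl hs
        · intro _
          rfl
        · intro _
          rfl
      rw [h1]
      exact ih (s + 2) Z hZ

theorem pass_zr (W : List Bool) (s : Fin 3) :
    run (sec (zr 3 ++ W) s).length ((bin (zr 3 ++ W)).drop s) =
      some ((bin (sec (zr 3 ++ W) s)).drop (ext (zr 3 ++ W) s)) := by
  have e : zr 3 ++ W = zr 2 ++ (false :: W) := rfl
  rw [e, sec_append, ext_append, bin_append, bin_append, List.length_append, run_add]
  have h1 := run_word (zr 2) s (bin (false :: W)) (by simp [bin])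
  rw [h1, Option.bind_some]
  refine run_word (false :: W) (ext (zr 2) s) (bin (sec (zr 2) s)) ?_
  have h : ∀ s : Fin 3, 2 ≤ (bin (sec (zr 2) s)).length := by decide
  exact h s

theorem raw_pass_zr (w : List Bool) :
    run (rsec (zr 5 ++ w) 0).length (zr 5 ++ w) =
      some ((bin (rsec (zr 5 ++ w) 0)).drop (rext (zr 5 ++ w) 0)) := by
  have e : zr 5 ++ w = zr 3 ++ (false :: false :: w) := rfl
  rw [e, rsec_append, rext_append, bin_append, List.length_append, run_add]
  have h1 := raw_word (zr 3) 0 (false :: false :: w) (by simp)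
  have h2 : ((zr 3 ++ false :: false :: w).drop ((0 : Fin 3) : ℕ)) = zr 3 ++ false :: false :: w :=
    rfl
  rw [h2] at h1
  rw [h1, Option.bind_some]
  refine raw_word (false :: false :: w) (rext (zr 3) 0) (bin (rsec (zr 3) 0)) ?_
  decide

theorem st_zeros (w : List Bool) (N : ℕ) (hw : ∃ w', w = zr (3 ^ (N + 1)) ++ w') (t : ℕ)
    (ht : t ≤ N) : ∃ W, (st w t).1 = zr (3 ^ (N - t)) ++ W := by
  induction t with
  | zero =>
    obtain ⟨w', rfl⟩ := hw
    refine ⟨rsec w' (rext (zr (3 ^ (N + 1))) 0), ?_⟩
    show rsec (zr (3 ^ (N + 1)) ++ w') 0 = _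
    rw [rsec_append]
    have e : 3 ^ (N + 1) = 3 * 3 ^ N := by ring
    rw [e, (rsec_zr3 _ 0).1]
    rfl
  | succ t ih =>
    obtain ⟨W, hW⟩ := ih (by omega)
    have e : 3 ^ (N - t) = 3 * 3 ^ (N - (t + 1)) := by
      rw [← pow_succ']
      congr 1
      omega
    refine ⟨zr (3 ^ (N - (t + 1))) ++ sec W (st w t).2, ?_⟩
    show sec (st w t).1 (st w t).2 = _
    rw [hW, sec_append, e, (sec_zr3 _ _).1, (sec_zr3 _ _).2, two_mul, zr_add, List.append_assoc]

theorem passes_some (w : List Bool) (N : ℕ) (hw : ∃ w', w = zr (3 ^ (N + 2)) ++ w') (t : ℕ)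
    (ht : t ≤ N) : ∃ n : ℕ, run n w = some ((bin (st w t).1).drop ((st w t).2 : ℕ)) := by
  induction t with
  | zero =>
    obtain ⟨w', rfl⟩ := hw
    obtain ⟨d, hd⟩ : ∃ d, 3 ^ (N + 2) = 5 + d := by
      refine Nat.exists_eq_add_of_le ?_
      have : 1 ≤ 3 ^ N := Nat.one_le_pow _ _ (by norm_num)
      have e : 3 ^ (N + 2) = 9 * 3 ^ N := by ring
      omega
    refine ⟨(rsec (zr (3 ^ (N + 2)) ++ w') 0).length, ?_⟩
    show _ = some ((bin (rsec (zr (3 ^ (N + 2)) ++ w') 0)).drop
      ((rext (zr (3 ^ (N + 2)) ++ w') 0 : Fin 3) : ℕ))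
    rw [hd, zr_add, List.append_assoc]
    exact raw_pass_zr _
  | succ t ih =>
    obtain ⟨n, hn⟩ := ih (by omega)
    obtain ⟨W, hW⟩ := st_zeros w (N + 1) hw t (by omega)
    obtain ⟨d, hd⟩ : ∃ d, 3 ^ (N + 1 - t) = 3 + d := by
      refine Nat.exists_eq_add_of_le ?_
      have : 1 ≤ 3 ^ (N - t) := Nat.one_le_pow _ _ (by norm_num)
      have e : 3 ^ (N + 1 - t) = 3 * 3 ^ (N - t) := by
        rw [← pow_succ']
        congr 1
        omega
      omega
    refine ⟨n + (sec (st w t).1 (st w t).2).length, ?_⟩
    rw [run_add, hn, Option.bind_some]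
    show _ = some ((bin (sec (st w t).1 (st w t).2)).drop
      ((ext (st w t).1 (st w t).2 : Fin 3) : ℕ))
    rw [hW, hd, zr_add, List.append_assoc]
    exact pass_zr _ _

/-! ## all profiles occur -/

theorem ncard_level (T : ℕ) : {z : List (Fin 3) | z.length = T}.ncard = 3 ^ T := by
  have h := card_vector (α := Fin 3) T
  rw [Fintype.card_fin] at h
  rw [← h, ← Nat.card_eq_fintype_card]
  rfl

theorem yg_surj (u v : List Bool) (T : ℕ) (z : List (Fin 3)) (hz : z.length = T) :
    ∃ r, r < 3 ^ T ∧ yg u v r T = z := by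
  have hinj : Set.InjOn (fun r => yg u v r T) {r : ℕ | r < 3 ^ T} := by
    intro r hr r' hr' hrr
    exact Nat.ModEq.eq_of_lt_of_lt (yg_inj u v T _ _ hrr) hr hr'
  have h1 : ((fun r => yg u v r T) '' {r : ℕ | r < 3 ^ T}).ncard = 3 ^ T := by
    rw [Set.ncard_image_of_injOn hinj]
    have e : {r : ℕ | r < 3 ^ T} = ((Finset.range (3 ^ T) : Finset ℕ) : Set ℕ) := by
      ext r; simp
    rw [e, Set.ncard_coe_finset, Finset.card_range]
  have h2 : (fun r => yg u v r T) '' {r : ℕ | r < 3 ^ T} ⊆ {z : List (Fin 3) | z.length = T} := by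
    rintro _ ⟨r, _, rfl⟩
    exact yg_length _ _ _ _
  have h3 := Set.eq_of_subset_of_ncard_le h2 (by rw [h1, ncard_level]) (fin_len T)
  have h4 : z ∈ (fun r => yg u v r T) '' {r : ℕ | r < 3 ^ T} := by rw [h3]; exact hz
  obtain ⟨r, hr, hz'⟩ := h4
  exact ⟨r, hr, hz'⟩

theorem count_bin (W : List Bool) : W.count true ≤ (bin W).count true := by
  induction W with
  | nil => simp [bin]
  | cons c W ih =>
    cases c with
    | false => simpa [bin] using ih
    | true =>
      simp only [bin, List.count_cons]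
      simp
      omega

theorem count_drop_le (W : List Bool) (j : ℕ) : W.count true ≤ (W.drop j).count true + j := by
  induction j generalizing W with
  | zero => simp
  | succ j ih =>
    cases W with
    | nil => simp
    | cons c W =>
      have h := ih W
      rw [List.drop_succ_cons, List.count_cons]
      split_ifs <;> omega

theorem grow_cons (hE2 : Stmt_E2) (q : List Bool) (K : ℕ) : ∃ M r i₀ : ℕ, r < M ∧
    ∀ i, i₀ ≤ i → i % M = r → ∃ (t : ℕ) (w : List Bool),
      run t (List.replicate i false ++ true :: q) = some w ∧ K ≤ w.count true := by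
  obtain ⟨v', hv'⟩ := hE2 (K + 2)
  obtain ⟨r, hr, hz⟩ := yg_surj [] (true :: q) (v'.length + 1) (0 :: v') (by simp)
  refine ⟨3 ^ (v'.length + 1), r, 3 ^ (v'.length + 2), hr, ?_⟩
  intro i hi hir
  have hmod : i ≡ r [MOD 3 ^ (v'.length + 1)] := by
    have : i % 3 ^ (v'.length + 1) = r % 3 ^ (v'.length + 1) := by
      rw [hir, Nat.mod_eq_of_lt hr]
    exact this
  have h1 := (Xg_congr [] (true :: q) (v'.length + 1) hmod (v'.length + 1) le_rfl).2
  rw [hz] at h1
  have hw : wg [] (true :: q) i = List.replicate i false ++ true :: q := rfl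
  obtain ⟨n, hn⟩ := passes_some (wg [] (true :: q) i) v'.length
    (by
      obtain ⟨d, hd⟩ := Nat.exists_eq_add_of_le hi
      refine ⟨zr d ++ true :: q, ?_⟩
      rw [hw, hd, ← List.append_assoc, ← zr_add]) v'.length le_rfl
  refine ⟨n, _, hn, ?_⟩
  have h2 := rsecs_X (wg [] (true :: q) i) v'.length
  have h3 : rsecs (wg [] (true :: q) i) (X (wg [] (true :: q) i) (v'.length + 1)) =
      rsecs ([] ++ zr i) (X (wg [] (true :: q) i) (v'.length + 1)) ++
        rsecs (true :: q) (yg [] (true :: q) i (v'.length + 1)) := by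
    unfold yg
    conv_lhs => rw [show rsecs (wg [] (true :: q) i) = rsecs ([] ++ zr i ++ (true :: q)) from rfl]
    rw [rsecs_append]
  have h4 : rsecs (true :: q) (0 :: v') = secs [true] v' ++ secs (rsec q 2) (act v' [true]) := by
    show secs (rsec (true :: q) 0) v' = _
    rw [← secs_append]
    rfl
  have h5 : K + 2 ≤ (st (wg [] (true :: q) i) v'.length).1.count true := by
    rw [← h2, h3, h1, h4, List.count_append, List.count_append]
    omega
  have h6 := count_bin (st (wg [] (true :: q) i) v'.length).1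
  have h7 := count_drop_le (bin (st (wg [] (true :: q) i) v'.length).1)
    ((st (wg [] (true :: q) i) v'.length).2 : ℕ)
  have h8 : ((st (wg [] (true :: q) i) v'.length).2 : ℕ) ≤ 2 := by
    have := (st (wg [] (true :: q) i) v'.length).2.isLt
    omega
  omega

theorem grow_main (hE2 : Stmt_E2) (v : List Bool) (hv : true ∈ v) (K : ℕ) : ∃ M r i₀ : ℕ, r < M ∧
    ∀ i, i₀ ≤ i → i % M = r → ∃ (t : ℕ) (w : List Bool),
      run t (List.replicate i false ++ v) = some w ∧ K ≤ w.count true := by
  induction v with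
  | nil => simp at hv
  | cons c v ih =>
    cases c with
    | true =>
      exact grow_cons hE2 v K
    | false =>
      obtain ⟨M, r, i₀, hr, h⟩ := ih (by simpa using hv)
      refine ⟨M, (r + (M - 1)) % M, i₀, Nat.mod_lt _ (by omega), ?_⟩
      intro i hi hir
      have h1 : (i + 1) % M = r := by
        have h2 : (i + 1) % M = ((r + (M - 1)) % M + 1) % M := by
          rw [← hir, Nat.mod_add_mod]
        rw [h2, Nat.mod_add_mod]
        have h3 : r + (M - 1) + 1 = r + M := by omega
        rw [h3, Nat.add_mod_right, Nat.mod_eq_of_lt hr]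
      obtain ⟨t, w, ht, hw⟩ := h (i + 1) (by omega) h1
      refine ⟨t, w, ?_, hw⟩
      have e : List.replicate i false ++ false :: v = List.replicate (i + 1) false ++ v := by
        rw [List.replicate_succ', List.append_assoc]
        rfl
      rw [e]
      exact ht

end Pool.Agent.Helper34.SD
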