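import Pool.Agent.Helper34.SD.Path

/-!
# Post's tag system (MP_41f897_lc): counting profiles, windows
-/

set_option autoImplicit false

namespace Pool.Agent.Helper34.SD

open Pool.Agent.Helper34.PT

theorem fin_len (n : ℕ) : {z : List (Fin 3) | z.length = n}.Finite := List.finite_length_eq _ n

/-- block words: the number of live profiles -/
theorem ncard_secs (m : ℕ) : ∀ W : List Bool,
    {z : List (Fin 3) | z.length = m ∧ true ∈ secs W z}.ncard = nal m W := by
  induction m with
  | zero =>
    intro W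
    by_cases h : true ∈ W
    · have e : {z : List (Fin 3) | z.length = 0 ∧ true ∈ secs W z} = {[]} := by
        ext z
        simp only [Set.mem_ofPred_eq, Set.mem_singleton_iff, List.length_eq_zero_iff]
        constructor
        · exact fun h => h.1
        · rintro rfl; exact ⟨rfl, h⟩
      rw [e, Set.ncard_singleton]
      simp [nal, h]
    · have e : {z : List (Fin 3) | z.length = 0 ∧ true ∈ secs W z} = ∅ := by
        ext z
        simp only [Set.mem_ofPred_eq, Set.mem_empty_iff_false, List.length_eq_zero_iff, iff_false,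
          not_and]
        rintro rfl
        exact h
      rw [e, Set.ncard_empty]
      simp [nal, h]
  | succ m ih =>
    intro W
    have hf : ∀ s : Fin 3, ((fun z : List (Fin 3) => s :: z) ''
        {z | z.length = m ∧ true ∈ secs (sec W s) z}).Finite := fun s =>
      ((fin_len m).subset (fun z hz => hz.1)).image _
    have hi : ∀ s : Fin 3, ((fun z : List (Fin 3) => s :: z) ''
        {z | z.length = m ∧ true ∈ secs (sec W s) z}).ncard = nal m (sec W s) := fun s => by
      rw [Set.ncard_image_of_injective _ (List.cons_injective), ih]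
    have e : {z : List (Fin 3) | z.length = m + 1 ∧ true ∈ secs W z} =
        ((fun z => (0 : Fin 3) :: z) '' {z | z.length = m ∧ true ∈ secs (sec W 0) z} ∪
        (fun z => (1 : Fin 3) :: z) '' {z | z.length = m ∧ true ∈ secs (sec W 1) z}) ∪
        (fun z => (2 : Fin 3) :: z) '' {z | z.length = m ∧ true ∈ secs (sec W 2) z} := by
      ext z
      simp only [Set.mem_ofPred_eq, Set.mem_union, Set.mem_image]
      constructor
      · rintro ⟨h1, h2⟩
        cases z with
        | nil => simp at h1
        | cons s z =>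
          have h3 : z.length = m := by simpa using h1
          fin_cases s
          · exact Or.inl (Or.inl ⟨z, ⟨h3, h2⟩, rfl⟩)
          · exact Or.inl (Or.inr ⟨z, ⟨h3, h2⟩, rfl⟩)
          · exact Or.inr ⟨z, ⟨h3, h2⟩, rfl⟩
      · rintro ((⟨z, ⟨h1, h2⟩, rfl⟩ | ⟨z, ⟨h1, h2⟩, rfl⟩) | ⟨z, ⟨h1, h2⟩, rfl⟩) <;>
          exact ⟨by simp [h1], h2⟩
    have hd : ∀ (s s' : Fin 3) (A B : Set (List (Fin 3))), s ≠ s' →
        Disjoint ((fun z : List (Fin 3) => s :: z) '' A) ((fun z : List (Fin 3) => s' :: z) '' B) := by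
      intro s s' A B hs
      rw [Set.disjoint_left]
      rintro z ⟨x, _, rfl⟩ ⟨y, _, hy⟩
      simp only [List.cons.injEq] at hy
      exact hs hy.1.symm
    rw [e, Set.ncard_union_eq ?_ ((hf 0).union (hf 1)) (hf 2),
      Set.ncard_union_eq (hd 0 1 _ _ (by decide)) (hf 0) (hf 1), hi, hi, hi]
    · rfl
    · rw [Set.disjoint_union_left]
      exact ⟨hd 0 2 _ _ (by decide), hd 1 2 _ _ (by decide)⟩

theorem count_rsec (w : List Bool) :
    (rsec w 0).count true + (rsec w 1).count true + (rsec w 2).count true = w.count true := by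
  induction w with
  | nil => rfl
  | cons c w ih =>
    have e0 : rsec (c :: w) 0 = c :: rsec w 2 := rfl
    have e1 : rsec (c :: w) 1 = rsec w 0 := rfl
    have e2 : rsec (c :: w) 2 = rsec w 1 := rfl
    rw [e0, e1, e2, List.count_cons, List.count_cons]
    omega

/-- raw words: the number of live profiles -/
theorem ncard_rsecs (hE1 : Stmt_E1) (m : ℕ) (w : List Bool) :
    {z : List (Fin 3) | z.length = m + 1 ∧ true ∈ rsecs w z}.ncard ≤
      w.count true * nal m [true] := by
  have hi : ∀ s : Fin 3, ((fun z : List (Fin 3) => s :: z) ''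
      {z | z.length = m ∧ true ∈ secs (rsec w s) z}).ncard ≤
        (rsec w s).count true * nal m [true] := fun s => by
    rw [Set.ncard_image_of_injective _ (List.cons_injective), ncard_secs]
    exact hE1 _ _
  have hf : ∀ s : Fin 3, ((fun z : List (Fin 3) => s :: z) ''
      {z | z.length = m ∧ true ∈ secs (rsec w s) z}).Finite := fun s =>
    ((fin_len m).subset (fun z hz => hz.1)).image _
  have e : {z : List (Fin 3) | z.length = m + 1 ∧ true ∈ rsecs w z} ⊆
      ((fun z => (0 : Fin 3) :: z) '' {z | z.length = m ∧ true ∈ secs (rsec w 0) z} ∪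
      (fun z => (1 : Fin 3) :: z) '' {z | z.length = m ∧ true ∈ secs (rsec w 1) z}) ∪
      (fun z => (2 : Fin 3) :: z) '' {z | z.length = m ∧ true ∈ secs (rsec w 2) z} := by
    rintro z ⟨h1, h2⟩
    cases z with
    | nil => simp at h1
    | cons s z =>
      have h3 : z.length = m := by simpa using h1
      fin_cases s
      · exact Or.inl (Or.inl ⟨z, ⟨h3, h2⟩, rfl⟩)
      · exact Or.inl (Or.inr ⟨z, ⟨h3, h2⟩, rfl⟩)
      · exact Or.inr ⟨z, ⟨h3, h2⟩, rfl⟩
  have h1 := Set.ncard_le_ncard e (((hf 0).union (hf 1)).union (hf 2))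
  have h2 := Set.ncard_union_le
    (((fun z => (0 : Fin 3) :: z) '' {z | z.length = m ∧ true ∈ secs (rsec w 0) z} ∪
      (fun z => (1 : Fin 3) :: z) '' {z | z.length = m ∧ true ∈ secs (rsec w 1) z}))
      ((fun z => (2 : Fin 3) :: z) '' {z | z.length = m ∧ true ∈ secs (rsec w 2) z})
  have h3 := Set.ncard_union_le
    ((fun z => (0 : Fin 3) :: z) '' {z | z.length = m ∧ true ∈ secs (rsec w 0) z})
    ((fun z => (1 : Fin 3) :: z) '' {z | z.length = m ∧ true ∈ secs (rsec w 1) z})
  have h4 := count_rsec w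
  have i0 := hi 0
  have i1 := hi 1
  have i2 := hi 2
  calc _ ≤ _ := h1
    _ ≤ (rsec w 0).count true * nal m [true] + (rsec w 1).count true * nal m [true] +
        (rsec w 2).count true * nal m [true] := by omega
    _ = w.count true * nal m [true] := by rw [← h4]; ring

/-! ## moving the core in a fixed length -/

/-- the word `0^τ u 0^(S-τ)` -/
def wf (u : List Bool) (S τ : ℕ) : List Bool := zr τ ++ u ++ zr (S - τ)

/-- the profile at the core -/
def yf (u : List Bool) (S τ t : ℕ) : List (Fin 3) := ract (X (wf u S τ) t) (zr τ)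

theorem yf_length (u : List Bool) (S τ t : ℕ) : (yf u S τ t).length = t := by
  rw [yf, ract_length, X_length]

theorem yf_snoc (u : List Bool) (S τ t : ℕ) : ∃ r, yf u S τ (t + 1) = yf u S τ t ++ [r] := by
  unfold yf
  rw [X_snoc]
  exact ract_snoc _ _ _

theorem Xf_succ (u : List Bool) (S τ t : ℕ) :
    X (wf u S τ) (t + 1) = 0 :: ract (ract (yf u S τ t) u) (zr (S - τ)) := by
  rw [X_succ]
  unfold yf
  conv_lhs => rw [show wf u S τ = zr τ ++ u ++ zr (S - τ) from rfl]
  rw [ract_append, ract_append]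
  rfl

theorem yf_inj (u : List Bool) (S : ℕ) (t : ℕ) : ∀ τ τ' : ℕ, τ ≤ S → τ' ≤ S →
    yf u S τ t = yf u S τ' t → τ ≡ τ' [MOD 3 ^ t] := by
  induction t with
  | zero => intro τ τ' _ _ _; simp [Nat.modEq_one]
  | succ t ih =>
    intro τ τ' h1 h2 h
    obtain ⟨r, hr⟩ := yf_snoc u S τ t
    obtain ⟨r', hr'⟩ := yf_snoc u S τ' t
    have h0 : yf u S τ t = yf u S τ' t := by
      have h3 := h
      rw [hr, hr'] at h3
      exact (List.append_inj h3 (by rw [yf_length, yf_length])).1
    have h4 := ih τ τ' h1 h2 h0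
    have h5 : S - τ ≡ S - τ' [MOD 3 ^ t] := by
      have h6 : (S - τ) + τ ≡ (S - τ') + τ' [MOD 3 ^ t] := by
        rw [Nat.sub_add_cancel h1, Nat.sub_add_cancel h2]
      exact Nat.ModEq.add_right_cancel h4 h6
    have h7 : X (wf u S τ) (t + 1) = X (wf u S τ') (t + 1) := by
      rw [Xf_succ, Xf_succ, h0]
      congr 1
      exact ract_zr_congr _ t (by rw [ract_length, yf_length]) h5
    have h8 : ract (X (wf u S τ) (t + 1)) (zr τ) = ract (X (wf u S τ) (t + 1)) (zr τ') := by
      have h9 := h
      unfold yf at h9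
      rw [← h7] at h9
      exact h9
    have h10 := ract_zr_inj _ h8
    rwa [X_length] at h10

/-- the constant in the linear time bound -/
def tc (m : ℕ) : ℕ := 2 ^ (m + 2) + 1

theorem wf_window (hE1 : Stmt_E1) (u : List Bool) (q S m : ℕ) (hu : 1 ≤ u.count true)
    (h : 3 ^ (m + 1) * q + 3 ^ (m + 1) ≤ S + 1) :
    {r : ℕ | r < 3 ^ (m + 1) ∧ ¬ run (tc m * (List.replicate (3 ^ (m + 1) * q + r) false ++ u ++
      List.replicate (S - (3 ^ (m + 1) * q + r)) false).length)
      (List.replicate (3 ^ (m + 1) * q + r) false ++ u ++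
      List.replicate (S - (3 ^ (m + 1) * q + r)) false) = none}.ncard ≤
      u.count true * nal m [true] := by
  refine le_trans ?_ (ncard_rsecs hE1 m u)
  refine Set.ncard_le_ncard_of_injOn (fun r => yf u S (3 ^ (m + 1) * q + r) (m + 1)) ?_ ?_
    ((fin_len (m + 1)).subset (fun z hz => hz.1))
  · rintro r ⟨hr, hn⟩
    refine ⟨yf_length _ _ _ _, ?_⟩
    by_contra hc
    apply hn
    have hdead : true ∉ rsecs (wf u S (3 ^ (m + 1) * q + r))
        (X (wf u S (3 ^ (m + 1) * q + r)) (m + 1)) := by
      conv => rw [show rsecs (wf u S (3 ^ (m + 1) * q + r)) = rsecs (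
        zr (3 ^ (m + 1) * q + r) ++ u ++ zr (S - (3 ^ (m + 1) * q + r))) from rfl]
      rw [rsecs_append, rsecs_append]
      simp only [List.mem_append, not_or]
      exact ⟨⟨not_mem_rsecs _ (true_not_mem_zr _), hc⟩, not_mem_rsecs _ (true_not_mem_zr _)⟩
    have h1 := run_of_dead hdead
    have hl : 1 ≤ u.length := le_trans hu List.count_le_length
    refine run_mono h1 ?_
    unfold tc wf
    rw [List.length_append, List.length_append]
    nlinarith [hl]
  · rintro r ⟨hr, _⟩ r' ⟨hr', _⟩ hrr
    have h1 := yf_inj u S (m + 1) _ _ (by omega) (by omega) hrr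
    have h2 : r ≡ r' [MOD 3 ^ (m + 1)] := Nat.ModEq.add_left_cancel' _ h1
    exact Nat.ModEq.eq_of_lt_of_lt h2 hr hr'

end Pool.Agent.Helper34.SD
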