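import Pool.Agent.Helper34.PT.Pass

/-!
# Post's tag system (MP_41f897_lc): sparse words halt almost surely; definitions and the statements of the modules

Words of blocks (`a = 00 = false`, `b = 1101 = true`), `sec`, `ext`, `act` are those of
`Pool.Agent.Helper34.PT.Pass`.
-/

set_option autoImplicit false

namespace Pool.Agent.Helper34.SD

open Pool.Agent.Helper34.PT

/-- Post's process started at `w` stops. -/
def Halts (w : List Bool) : Prop := ∃ t : ℕ, run t w = none

/-- the letters read when the raw word `w` is read in the state `s` (`s` letters are skipped first) -/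
def rsec : List Bool → Fin 3 → List Bool
  | [], _ => []
  | c :: w, s => (if s = 0 then [c] else []) ++ rsec w (s + 2)

/-- the state after the raw word `w` is read -/
def rext : List Bool → Fin 3 → Fin 3
  | [], s => s
  | _ :: w, s => rext w (s + 2)

/-- iterated sections -/
def secs : List Bool → List (Fin 3) → List Bool
  | W, [] => W
  | W, s :: v => secs (sec W s) v

/-- the process in passes: word of blocks and state after the first (raw) pass and `t` further passes -/
def st (w : List Bool) : ℕ → List Bool × Fin 3
  | 0 => (rsec w 0, rext w 0)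
  | t + 1 => (sec (st w t).1 (st w t).2, ext (st w t).1 (st w t).2)

/-- the number of profiles `v` of length `m` for which `secs W v` contains the letter `b` -/
def nal : ℕ → List Bool → ℕ
  | 0, W => if true ∈ W then 1 else 0
  | m + 1, W => nal m (sec W 0) + nal m (sec W 1) + nal m (sec W 2)

/-- Module E1: subadditivity. -/
def Stmt_E1 : Prop := ∀ (m : ℕ) (W : List Bool), nal m W ≤ W.count true * nal m [true]

/-- Module E2: the growing sections of `b` along the profile `(0,1,1,1,1)^n`: for every `K` there is a profile
`v` such that `secs [true] v` contains at least `K` letters `b`. -/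
def Stmt_E2 : Prop := ∀ K : ℕ, ∃ v : List (Fin 3), K ≤ (secs [true] v).count true

/-- Module E3: extinction. -/
def Stmt_E3 : Prop := ∀ ε : ℝ, 0 < ε → ∃ m : ℕ, ∀ n : ℕ, m ≤ n → (nal n [true] : ℝ) ≤ ε * 3 ^ n

/-- Module DY: if the letter `b` is absent after some pass, the process stops. -/
def Stmt_DY : Prop := ∀ (w : List Bool) (t : ℕ), true ∉ (st w t).1 → Halts w

/-- Module C1: the number of words of length `n` with exactly `k` letters `1`. -/
def Stmt_C1 : Prop := ∀ n k : ℕ,
  {w : List Bool | w.length = n ∧ w.count true = k}.Finite ∧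
  {w : List Bool | w.length = n ∧ w.count true = k}.ncard = n.choose k

/-- Module C2a: words with a letter `1` among the last `M` letters. -/
def Stmt_C2a : Prop := ∀ n k M : ℕ, 1 ≤ k →
  {w : List Bool | w.length = n ∧ w.count true = k ∧ true ∈ w.drop (n - M)}.ncard ≤
    M * (n - 1).choose (k - 1)

/-- Module C2: counting by translations. -/
def Stmt_C2 : Prop := ∀ (Bad : List Bool → Prop) (k M B : ℕ), 1 ≤ k → 1 ≤ M →
  (∀ (u : List Bool) (q S : ℕ), u.count true = k → M * q + M ≤ S + 1 →
    {r : ℕ | r < M ∧ Bad (List.replicate (M * q + r) false ++ u ++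
      List.replicate (S - (M * q + r)) false)}.ncard ≤ B) →
  ∀ n : ℕ, M * {w : List Bool | w.length = n ∧ w.count true = k ∧ Bad w}.ncard ≤
    B * n.choose k + M * (M * (n - 1).choose (k - 1))

/-- Module C3: from the finite inequality to the limit. -/
def Stmt_C3 : Prop := ∀ k : ℕ, 1 ≤ k →
  (∀ ε : ℝ, 0 < ε → ∃ M B : ℕ, 1 ≤ M ∧ (B : ℝ) ≤ ε * M ∧
    ∀ n : ℕ, M * {w : List Bool | w.length = n ∧ w.count true = k ∧ ¬ Halts w}.ncard ≤
      B * n.choose k + M * (M * (n - 1).choose (k - 1))) →
  Filter.Tendsto (fun n : ℕ =>
    ({w : List Bool | w.length = n ∧ w.count true = k ∧ Halts w}.ncard : ℝ) /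
      ({w : List Bool | w.length = n ∧ w.count true = k}.ncard : ℝ)) Filter.atTop (nhds 1)

end Pool.Agent.Helper34.SD
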