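import Pool.Agent.Helper34.SD.Cnt

/-!
# Post's tag system (MP_41f897_lc): the words `u 0^i v`
-/

set_option autoImplicit false

namespace Pool.Agent.Helper34.SD

open Pool.Agent.Helper34.PT

/-- the word `u 0^i v` -/
def wg (u v : List Bool) (i : ℕ) : List Bool := u ++ zr i ++ v

/-- the profile at `v` -/
def yg (u v : List Bool) (i t : ℕ) : List (Fin 3) := ract (X (wg u v i) t) (u ++ zr i)

theorem yg_length (u v : List Bool) (i t : ℕ) : (yg u v i t).length = t := by
  rw [yg, ract_length, X_length]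

theorem yg_snoc (u v : List Bool) (i t : ℕ) : ∃ r, yg u v i (t + 1) = yg u v i t ++ [r] := by
  unfold yg
  rw [X_snoc]
  exact ract_snoc _ _ _

theorem Xg_succ (u v : List Bool) (i t : ℕ) :
    X (wg u v i) (t + 1) = 0 :: ract (yg u v i t) v := by
  rw [X_succ]
  unfold yg
  conv_lhs => rw [show wg u v i = u ++ zr i ++ v from rfl]
  rw [ract_append]
  rfl

theorem yg_inj (u v : List Bool) (t i j : ℕ) (h : yg u v i t = yg u v j t) :
    i ≡ j [MOD 3 ^ t] := by
  have h1 : X (wg u v i) (t + 1) = X (wg u v j) (t + 1) := by rw [Xg_succ, Xg_succ, h]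
  have h2 : X (wg u v i) t = X (wg u v j) t := by
    rw [X_snoc, X_snoc] at h1
    exact (List.append_inj h1 (by rw [X_length, X_length])).1
  unfold yg at h
  rw [← h2, ract_append, ract_append] at h
  have h3 := ract_zr_inj _ h
  rwa [ract_length, X_length] at h3

/-- the profiles depend on `i` modulo `3^T` only -/
theorem Xg_congr (u v : List Bool) (T : ℕ) {i j : ℕ} (h : i ≡ j [MOD 3 ^ T]) :
    ∀ t, t ≤ T → X (wg u v i) (t + 1) = X (wg u v j) (t + 1) ∧ yg u v i t = yg u v j t := by
  intro t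
  induction t with
  | zero => intro _; exact ⟨rfl, rfl⟩
  | succ t ih =>
    intro ht
    have h0 := (ih (by omega)).1
    have h1 : yg u v i (t + 1) = yg u v j (t + 1) := by
      unfold yg
      rw [h0, ract_append, ract_append]
      refine ract_zr_congr _ T ?_ h
      rw [ract_length, X_length]
      exact ht
    exact ⟨by rw [Xg_succ, Xg_succ, h1], h1⟩

/-- the profile at `v` and the profile at `u` are both dead -/
def Dead (u v : List Bool) (m i : ℕ) : Prop :=
  true ∉ rsecs v (yg u v i (m + 1)) ∧ true ∉ secs (rsec u 0) (ract (yg u v i (m + 1)) v)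

theorem run_of_Dead {u v : List Bool} {m i : ℕ} (h : Dead u v m i) :
    run (2 ^ (m + 3) * (wg u v i).length + 1) (wg u v i) = none := by
  refine run_of_dead (t := m + 1) ?_
  have e : rsecs (wg u v i) (X (wg u v i) (m + 1 + 1)) =
      rsecs u (X (wg u v i) (m + 1 + 1)) ++
        rsecs (zr i) (ract (X (wg u v i) (m + 1 + 1)) u) ++
        rsecs v (yg u v i (m + 1 + 1)) := by
    unfold yg
    conv_lhs => rw [show rsecs (wg u v i) = rsecs (u ++ zr i ++ v) from rfl]
    rw [rsecs_append, rsecs_append]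
  rw [e]
  simp only [List.mem_append, not_or]
  refine ⟨⟨?_, not_mem_rsecs _ (true_not_mem_zr _)⟩, ?_⟩
  · rw [Xg_succ]
    exact h.2
  · obtain ⟨r, hr⟩ := yg_snoc u v i (m + 1)
    rw [hr]
    have hl : (yg u v i (m + 1)).length = m + 1 := yg_length _ _ _ _
    have h1 := h.1
    revert hl h1
    generalize yg u v i (m + 1) = z
    intro hl h1
    cases z with
    | nil => simp at hl
    | cons s z =>
      show true ∉ secs (rsec v s) (z ++ [r])
      rw [secs_snoc]
      exact not_mem_sec h1 r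

theorem Dead_congr {u v : List Bool} {m i j : ℕ} (h : i ≡ j [MOD 3 ^ (m + 1)])
    (hd : Dead u v m i) : Dead u v m j := by
  have h1 := (Xg_congr u v (m + 1) h (m + 1) le_rfl).2
  unfold Dead at hd ⊢
  rwa [h1] at hd

theorem count_rsec_le (u : List Bool) : (rsec u 0).count true ≤ u.count true := by
  have := count_rsec u
  omega

theorem nal_succ_le (hE1 : Stmt_E1) (m : ℕ) : nal (m + 1) [true] ≤ 3 * nal m [true] := by
  have e : nal (m + 1) [true] = nal m [true, true] + nal m [true] + nal m [false] := rfl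
  have h1 := hE1 m [true, true]
  have h2 := hE1 m [true]
  have h3 := hE1 m [false]
  have c1 : ([true, true] : List Bool).count true = 2 := rfl
  have c3 : ([false] : List Bool).count true = 0 := rfl
  rw [c1] at h1
  rw [c3] at h3
  omega

/-- in the window `[0, 3^(m+1))` few `i` are not dead -/
theorem not_Dead_count (hE1 : Stmt_E1) (u v : List Bool) (m : ℕ) :
    {r : ℕ | r < 3 ^ (m + 1) ∧ ¬ Dead u v m r}.ncard ≤
      3 * (u.count true + v.count true) * nal m [true] := by
  have hA : {r : ℕ | r < 3 ^ (m + 1) ∧ true ∈ rsecs v (yg u v r (m + 1))}.ncard ≤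
      v.count true * nal m [true] := by
    refine le_trans ?_ (ncard_rsecs hE1 m v)
    refine Set.ncard_le_ncard_of_injOn (fun r => yg u v r (m + 1)) ?_ ?_
      ((fin_len (m + 1)).subset (fun z hz => hz.1))
    · rintro r ⟨hr, hn⟩
      exact ⟨yg_length _ _ _ _, hn⟩
    · rintro r ⟨hr, _⟩ r' ⟨hr', _⟩ hrr
      exact Nat.ModEq.eq_of_lt_of_lt (yg_inj u v (m + 1) _ _ hrr) hr hr'
  have hB : {r : ℕ | r < 3 ^ (m + 1) ∧
      true ∈ secs (rsec u 0) (ract (yg u v r (m + 1)) v)}.ncard ≤ nal (m + 1) (rsec u 0) := by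
    rw [← ncard_secs]
    refine Set.ncard_le_ncard_of_injOn (fun r => ract (yg u v r (m + 1)) v) ?_ ?_
      ((fin_len (m + 1)).subset (fun z hz => hz.1))
    · rintro r ⟨hr, hn⟩
      exact ⟨by rw [ract_length, yg_length], hn⟩
    · rintro r ⟨hr, _⟩ r' ⟨hr', _⟩ hrr
      exact Nat.ModEq.eq_of_lt_of_lt (yg_inj u v (m + 1) _ _ (ract_inj v hrr)) hr hr'
  have hsub : {r : ℕ | r < 3 ^ (m + 1) ∧ ¬ Dead u v m r} ⊆
      {r : ℕ | r < 3 ^ (m + 1) ∧ true ∈ rsecs v (yg u v r (m + 1))} ∪
      {r : ℕ | r < 3 ^ (m + 1) ∧ true ∈ secs (rsec u 0) (ract (yg u v r (m + 1)) v)} := by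
    rintro r ⟨hr, hn⟩
    by_cases h1 : true ∈ rsecs v (yg u v r (m + 1))
    · exact Or.inl ⟨hr, h1⟩
    · refine Or.inr ⟨hr, ?_⟩
      by_contra h2
      exact hn ⟨h1, h2⟩
  have hfin : ∀ p : ℕ → Prop, {r : ℕ | r < 3 ^ (m + 1) ∧ p r}.Finite := fun p =>
    (Set.finite_lt_nat _).subset (fun r hr => hr.1)
  have h1 := Set.ncard_le_ncard hsub ((hfin _).union (hfin _))
  have h2 := Set.ncard_union_le
    {r : ℕ | r < 3 ^ (m + 1) ∧ true ∈ rsecs v (yg u v r (m + 1))}
    {r : ℕ | r < 3 ^ (m + 1) ∧ true ∈ secs (rsec u 0) (ract (yg u v r (m + 1)) v)}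
  have h3 : nal (m + 1) (rsec u 0) ≤ u.count true * (3 * nal m [true]) :=
    le_trans (hE1 _ _) (Nat.mul_le_mul (count_rsec_le u) (nal_succ_le hE1 m))
  nlinarith [h1, h2, h3, hA, hB, Nat.zero_le (v.count true * nal m [true])]

/-- the first part of the main theorem -/
theorem gap_main (hE1 : Stmt_E1) (hE3 : Stmt_E3) (u v : List Bool) (ε : ℝ)
    (hε : 0 < ε) : ∃ (C m : ℕ) (R : Finset ℕ), R ⊆ Finset.range (3 ^ m) ∧
      (1 - ε) * 3 ^ m ≤ R.card ∧
      ∀ i : ℕ, i % 3 ^ m ∈ R →
        run (C * (i + 1)) (u ++ List.replicate i false ++ v) = none := by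
  classical
  set c : ℕ := u.count true + v.count true with hc
  obtain ⟨m, hm⟩ := hE3 (ε / (c + 1)) (by positivity)
  have hm1 := hm m le_rfl
  refine ⟨2 ^ (m + 3) * (u.length + v.length + 1) + 1, m + 1,
    (Finset.range (3 ^ (m + 1))).filter (fun r => Dead u v m r),
    Finset.filter_subset _ _, ?_, ?_⟩
  · have h1 := not_Dead_count hE1 u v m
    have e1 : {r : ℕ | r < 3 ^ (m + 1) ∧ ¬ Dead u v m r} =
        (((Finset.range (3 ^ (m + 1))).filter (fun r => ¬ Dead u v m r) : Finset ℕ) : Set ℕ) := by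
      ext r
      simp
    rw [e1, Set.ncard_coe_finset] at h1
    have h2 := Finset.card_filter_add_card_filter_not (s := Finset.range (3 ^ (m + 1)))
      (fun r => Dead u v m r)
    rw [Finset.card_range] at h2
    have h3 : (((Finset.range (3 ^ (m + 1))).filter (fun r => ¬ Dead u v m r)).card : ℝ) ≤
        3 * c * nal m [true] := by exact_mod_cast h1
    have h4 : (((Finset.range (3 ^ (m + 1))).filter (fun r => Dead u v m r)).card : ℝ) +
        ((Finset.range (3 ^ (m + 1))).filter (fun r => ¬ Dead u v m r)).card =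
        3 ^ (m + 1) := by exact_mod_cast h2
    have h5 : (c : ℝ) * nal m [true] ≤ ε * 3 ^ m := by
      have hc0 : (0 : ℝ) ≤ c := Nat.cast_nonneg _
      calc (c : ℝ) * nal m [true] ≤ c * (ε / (c + 1) * 3 ^ m) :=
            mul_le_mul_of_nonneg_left hm1 hc0
        _ = (c / (c + 1)) * (ε * 3 ^ m) := by ring
        _ ≤ 1 * (ε * 3 ^ m) := by
            apply mul_le_mul_of_nonneg_right _ (by positivity)
            rw [div_le_one (by positivity)]
            linarith
        _ = ε * 3 ^ m := one_mul _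
    have h6 : (3 : ℝ) ^ (m + 1) = 3 * 3 ^ m := by ring
    rw [h6] at h4 ⊢
    nlinarith [h3, h4, h5]
  · intro i hi
    rw [Finset.mem_filter] at hi
    have h1 : i % 3 ^ (m + 1) ≡ i [MOD 3 ^ (m + 1)] := Nat.mod_modEq _ _
    have h2 := run_of_Dead (Dead_congr h1 hi.2)
    refine run_mono h2 ?_
    have hl : (wg u v i).length = u.length + i + v.length := by
      simp only [wg, List.length_append, List.length_replicate]
    rw [hl]
    have e : (2 ^ (m + 3) * (u.length + v.length + 1) + 1) * (i + 1) =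
        2 ^ (m + 3) * (u.length + i + v.length) + 1 +
          (2 ^ (m + 3) * ((u.length + v.length) * i) + 2 ^ (m + 3) + i) := by ring
    rw [e]
    exact Nat.le_add_right _ _

end Pool.Agent.Helper34.SD
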