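import Pool.Agent.Helper34.SD.Gap

/-!
# Post's tag system (MP_41f897_lc): sparse words stop in linear time
-/

set_option autoImplicit false

namespace Pool.Agent.Helper34.SD

open Pool.Agent.Helper34.PT

theorem mul_choose (n k : ℕ) (hn : 1 ≤ n) (hk : 1 ≤ k) :
    n * (n - 1).choose (k - 1) = k * n.choose k := by
  obtain ⟨n, rfl⟩ := Nat.exists_eq_add_of_le' hn
  obtain ⟨k, rfl⟩ := Nat.exists_eq_add_of_le' hk
  have h := Nat.add_one_mul_choose_eq n k
  simp only [Nat.add_sub_cancel]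
  rw [h]
  ring

theorem sparse_main (hE1 : Stmt_E1) (hE3 : Stmt_E3) (hC1 : Stmt_C1) (hC2 : Stmt_C2)
    (k : ℕ) (hk : 1 ≤ k) (ε : ℝ) (hε : 0 < ε) : ∃ C n₀ : ℕ, ∀ n : ℕ, n₀ ≤ n →
    (1 - ε) * (n.choose k : ℝ) ≤
      ({w : List Bool | w.length = n ∧ w.count true = k ∧ run (C * n) w = none}.ncard : ℝ) := by
  obtain ⟨m, hm⟩ := hE3 (ε / (2 * (k + 1))) (by positivity)
  have hm1 := hm m le_rfl
  set M : ℕ := 3 ^ (m + 1) with hM
  have hM1 : 1 ≤ M := Nat.one_le_pow _ _ (by norm_num)
  obtain ⟨n₁, hn₁⟩ := exists_nat_ge (2 * (M : ℝ) * k / ε)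
  refine ⟨tc m, n₁ + 1, ?_⟩
  intro n hn
  have h2 := hC2 (fun w => ¬ run (tc m * w.length) w = none) k M (k * nal m [true]) hk hM1 (by
    intro u q S hu hS
    have h := wf_window hE1 u q S m (by omega) hS
    rw [hu] at h
    exact h) n
  set bad : ℕ := {w : List Bool | w.length = n ∧ w.count true = k ∧
    ¬ run (tc m * w.length) w = none}.ncard with hbad
  have hfin := (hC1 n k).1
  have hcard := (hC1 n k).2
  have hsplit : n.choose k ≤
      {w : List Bool | w.length = n ∧ w.count true = k ∧ run (tc m * n) w = none}.ncard + bad := by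
    rw [← hcard, hbad]
    refine le_trans (Set.ncard_le_ncard ?_ ?_) (Set.ncard_union_le _ _)
    · rintro w ⟨h1, h3⟩
      by_cases h4 : run (tc m * n) w = none
      · exact Or.inl ⟨h1, h3, h4⟩
      · exact Or.inr ⟨h1, h3, by rw [h1]; exact h4⟩
    · exact (hfin.subset (fun w hw => ⟨hw.1, hw.2.1⟩)).union
        (hfin.subset (fun w hw => ⟨hw.1, hw.2.1⟩))
  have hchoose : (n : ℝ) * ((n - 1).choose (k - 1) : ℝ) = k * (n.choose k : ℝ) := by
    exact_mod_cast mul_choose n k (by omega) hk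
  have h2' : (M : ℝ) * bad ≤ (k * nal m [true]) * (n.choose k : ℝ) +
      M * (M * ((n - 1).choose (k - 1) : ℝ)) := by exact_mod_cast h2
  have hn0 : (0 : ℝ) < n := by
    have : 0 < n := by omega
    exact_mod_cast this
  have hMR : (0 : ℝ) < M := by exact_mod_cast hM1
  have hT : (0 : ℝ) ≤ (n.choose k : ℝ) := Nat.cast_nonneg _
  have hk0 : (0 : ℝ) ≤ k := Nat.cast_nonneg _
  -- first term
  have hB : (k : ℝ) * nal m [true] ≤ ε / 2 * M := by
    calc (k : ℝ) * nal m [true] ≤ k * (ε / (2 * (k + 1)) * 3 ^ m) :=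
          mul_le_mul_of_nonneg_left hm1 hk0
      _ = (k / (k + 1)) * (ε / 2 * 3 ^ m) := by
          field_simp
      _ ≤ 1 * (ε / 2 * 3 ^ m) := by
          apply mul_le_mul_of_nonneg_right _ (by positivity)
          rw [div_le_one (by positivity)]
          linarith
      _ ≤ ε / 2 * M := by
          rw [hM, one_mul, pow_succ]
          push_cast
          have : 0 < ε / 2 * 3 ^ m := by positivity
          nlinarith
  -- second term
  have hS : (M : ℝ) * ((n - 1).choose (k - 1) : ℝ) ≤ ε / 2 * (n.choose k : ℝ) := by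
    have h5 : (n : ℝ) * (M * ((n - 1).choose (k - 1) : ℝ)) = M * k * (n.choose k : ℝ) := by
      calc (n : ℝ) * (M * ((n - 1).choose (k - 1) : ℝ)) =
            M * ((n : ℝ) * ((n - 1).choose (k - 1) : ℝ)) := by ring
        _ = M * k * (n.choose k : ℝ) := by rw [hchoose]; ring
    have h6 : (M : ℝ) * k ≤ ε / 2 * n := by
      have h7 : (2 * (M : ℝ) * k / ε) ≤ n := by
        have : (n₁ : ℝ) ≤ n := by exact_mod_cast (by omega : n₁ ≤ n)
        linarith
      rw [div_le_iff₀ hε] at h7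
      nlinarith
    have h8 : (n : ℝ) * (M * ((n - 1).choose (k - 1) : ℝ)) ≤
        n * (ε / 2 * (n.choose k : ℝ)) := by
      rw [h5]
      calc (M : ℝ) * k * (n.choose k : ℝ) ≤ (ε / 2 * n) * (n.choose k : ℝ) :=
            mul_le_mul_of_nonneg_right h6 hT
        _ = n * (ε / 2 * (n.choose k : ℝ)) := by ring
    exact le_of_mul_le_mul_left h8 hn0
  have hfinal : (bad : ℝ) ≤ ε * (n.choose k : ℝ) := by
    have h9 : (M : ℝ) * bad ≤ M * (ε * (n.choose k : ℝ)) := by
      calc (M : ℝ) * bad ≤ (k * nal m [true]) * (n.choose k : ℝ) +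
            M * (M * ((n - 1).choose (k - 1) : ℝ)) := h2'
        _ ≤ (ε / 2 * M) * (n.choose k : ℝ) + M * (ε / 2 * (n.choose k : ℝ)) :=
            add_le_add (mul_le_mul_of_nonneg_right hB hT) (mul_le_mul_of_nonneg_left hS hMR.le)
        _ = M * (ε * (n.choose k : ℝ)) := by ring
    exact le_of_mul_le_mul_left h9 hMR
  have hsplit' : (n.choose k : ℝ) ≤
      ({w : List Bool | w.length = n ∧ w.count true = k ∧ run (tc m * n) w = none}.ncard : ℝ) +
        bad := by exact_mod_cast hsplit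
  linarith

theorem sparse_zero (n : ℕ) (w : List Bool) (hn : w.length = n) (h : w.count true = 0)
    (h0 : 1 ≤ n) : run (5 * n) w = none := by
  have h1 : true ∉ rsec w 0 := not_mem_rsec (List.count_eq_zero.1 h) 0
  have h2 := time_of_dead (w := w) (t := 0) h1
  refine run_mono h2 ?_
  rw [hn]
  omega

end Pool.Agent.Helper34.SD
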