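import Pool.Agent.Helper34.SD.Grow
import Pool.Agent.Helper71.SD.E2

/-!
# Post's tag system with productions 00 and 1101: a single letter 1 can have arbitrarily many descendants

Proof: along the profile `(0,1,1,1,1)^n` of states at the beginning of the passes the descendants of one block
`1101` are `X Q^(n-3)` with the fixed block `Q = 001110`; with zeros in front of the word every profile can be
realised, because a power of `0` acts as an odometer on the profiles.
-/

set_option autoImplicit false

namespace Pool.Agent.Helper34.SD.Ones

open Pool.Agent.Helper34.SD Pool.Agent.Helper34.PT

/-- For every word `v` with at least one letter `1` and every `K` there are `M`, a residue `r` modulo `M` and `i₀`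
such that for all `i ≥ i₀` congruent to `r` modulo `M` Post's process started at `0^i v` reaches a word with at
least `K` letters `1`. -/
theorem ones_proliferate (v : List Bool) (hv : true ∈ v) (K : ℕ) : ∃ M r i₀ : ℕ, r < M ∧
    ∀ i, i₀ ≤ i → i % M = r → ∃ (t : ℕ) (w : List Bool),
      run t (List.replicate i false ++ v) = some w ∧ K ≤ w.count true :=
  grow_main Pool.Agent.Helper71.SD.hE2 v hv K

end Pool.Agent.Helper34.SD.Ones
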