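import Pool.Agent.Helper34.SD.Time

/-!
# Post's tag system (MP_41f897_lc): profiles of raw words
-/

set_option autoImplicit false

namespace Pool.Agent.Helper34.SD

open Pool.Agent.Helper34.PT

/-- action of a raw word on profiles -/
def ract : List (Fin 3) → List Bool → List (Fin 3)
  | [], _ => []
  | s :: v, w => rext w s :: act v (rsec w s)

/-- iterated sections of a raw word -/
def rsecs (w : List Bool) : List (Fin 3) → List Bool
  | [] => w
  | s :: v => secs (rsec w s) v

theorem rext_append (U W : List Bool) (s : Fin 3) : rext (U ++ W) s = rext W (rext U s) := by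
  induction U generalizing s with
  | nil => rfl
  | cons c U ih => simp only [List.cons_append, rext, ih]

theorem rsec_append (U W : List Bool) (s : Fin 3) :
    rsec (U ++ W) s = rsec U s ++ rsec W (rext U s) := by
  induction U generalizing s with
  | nil => rfl
  | cons c U ih => simp only [List.cons_append, rext, rsec, ih, List.append_assoc]

theorem ract_append (v : List (Fin 3)) (U W : List Bool) :
    ract v (U ++ W) = ract (ract v U) W := by
  cases v with
  | nil => rfl
  | cons s v => simp only [ract, rext_append, rsec_append, act_append]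

theorem ract_length (v : List (Fin 3)) (w : List Bool) : (ract v w).length = v.length := by
  cases v with
  | nil => rfl
  | cons s v => simp only [ract, List.length_cons, act_length]

theorem secs_append (v : List (Fin 3)) : ∀ U W : List Bool,
    secs (U ++ W) v = secs U v ++ secs W (act v U) := by
  induction v with
  | nil => intro U W; rfl
  | cons s v ih => intro U W; simp only [secs, act, sec_append, ih]

theorem rsecs_append (v : List (Fin 3)) (U W : List Bool) :
    rsecs (U ++ W) v = rsecs U v ++ rsecs W (ract v U) := by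
  cases v with
  | nil => rfl
  | cons s v => simp only [rsecs, ract, rsec_append, secs_append]

theorem rext_shift (W : List Bool) (s : Fin 3) : rext W s = s + rext W 0 := by
  induction W generalizing s with
  | nil => simp [rext]
  | cons c W ih =>
    simp only [rext]
    rw [ih (s + 2), ih (0 + 2)]
    abel

theorem act_inj (W : List Bool) {v v' : List (Fin 3)} (h : act v W = act v' W) : v = v' :=
  (P W).injective h

theorem ract_inj (W : List Bool) {v v' : List (Fin 3)} (h : ract v W = ract v' W) : v = v' := by
  cases v with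
  | nil =>
    cases v' with
    | nil => rfl
    | cons s' v' => simp [ract] at h
  | cons s v =>
    cases v' with
    | nil => simp [ract] at h
    | cons s' v' =>
      simp only [ract, List.cons.injEq] at h
      obtain ⟨h1, h2⟩ := h
      rw [rext_shift W s, rext_shift W s'] at h1
      have h3 : s = s' := add_right_cancel h1
      subst h3
      rw [act_inj _ h2]

/-! ## snoc -/

theorem secs_snoc (v : List (Fin 3)) (s : Fin 3) : ∀ W : List Bool,
    secs W (v ++ [s]) = sec (secs W v) s := by
  induction v with
  | nil => intro W; rfl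
  | cons r v ih => intro W; simp only [List.cons_append, secs, ih]

theorem act_snoc (v : List (Fin 3)) (s : Fin 3) : ∀ W : List Bool,
    act (v ++ [s]) W = act v W ++ [ext (secs W v) s] := by
  induction v with
  | nil => intro W; rfl
  | cons r v ih => intro W; simp only [List.cons_append, act, secs, ih]

theorem ract_snoc (v : List (Fin 3)) (s : Fin 3) (W : List Bool) :
    ∃ r : Fin 3, ract (v ++ [s]) W = ract v W ++ [r] := by
  cases v with
  | nil => exact ⟨rext W s, rfl⟩
  | cons r v => exact ⟨ext (secs (rsec W r) v) s, by simp only [List.cons_append, ract, act_snoc]⟩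

theorem not_mem_sec {W : List Bool} (h : true ∉ W) (s : Fin 3) : true ∉ sec W s := by
  induction W generalizing s with
  | nil => simp [sec]
  | cons c W ih =>
    cases c with
    | true => simp at h
    | false =>
      have h' : true ∉ W := fun hh => h (List.mem_cons_of_mem _ hh)
      simp only [sec, List.mem_append, not_or]
      refine ⟨?_, ih h' _⟩
      fin_cases s <;> simp [out]

theorem not_mem_rsec {W : List Bool} (h : true ∉ W) (s : Fin 3) : true ∉ rsec W s := by
  induction W generalizing s with
  | nil => simp [rsec]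
  | cons c W ih =>
    cases c with
    | true => simp at h
    | false =>
      have h' : true ∉ W := fun hh => h (List.mem_cons_of_mem _ hh)
      simp only [rsec, List.mem_append, not_or]
      refine ⟨?_, ih h' _⟩
      split_ifs <;> simp

theorem not_mem_secs (v : List (Fin 3)) : ∀ {W : List Bool}, true ∉ W → true ∉ secs W v := by
  induction v with
  | nil => intro W h; exact h
  | cons s v ih => intro W h; exact ih (not_mem_sec h s)

theorem not_mem_rsecs (v : List (Fin 3)) {W : List Bool} (h : true ∉ W) : true ∉ rsecs W v := by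
  cases v with
  | nil => exact h
  | cons s v => exact not_mem_secs v (not_mem_rsec h s)

/-! ## zeros -/

/-- the word `0^n` -/
abbrev zr (n : ℕ) : List Bool := List.replicate n false

theorem true_not_mem_zr (n : ℕ) : true ∉ zr n := by
  intro h
  have := List.eq_of_mem_replicate h
  exact absurd this (by decide)

theorem rep_false (n : ℕ) : rep n [false] = zr n := by
  induction n with
  | zero => rfl
  | succ n ih => simp only [rep, ih]; rfl

theorem rsec_zr3 (j : ℕ) (s : Fin 3) : rsec (zr (3 * j)) s = zr j ∧ rext (zr (3 * j)) s = s := by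
  induction j with
  | zero => exact ⟨rfl, rfl⟩
  | succ j ih =>
    have h : zr (3 * (j + 1)) = [false, false, false] ++ zr (3 * j) := by
      show List.replicate (3 * j + 1 + 1 + 1) false = _
      rfl
    have h1 : ∀ s : Fin 3, rsec [false, false, false] s = [false] ∧
        rext [false, false, false] s = s := by decide
    rw [h, rsec_append, rext_append, (h1 s).1, (h1 s).2, ih.1, ih.2]
    exact ⟨rfl, rfl⟩

theorem rext_zr_mod (n : ℕ) (s : Fin 3) (h : rext (zr n) s = s) : 3 ∣ n := by
  obtain ⟨j, r, hr, rfl⟩ : ∃ j r, r < 3 ∧ n = 3 * j + r := ⟨n / 3, n % 3, Nat.mod_lt _ (by norm_num),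
    (Nat.div_add_mod n 3).symm⟩
  have e : zr (3 * j + r) = zr (3 * j) ++ zr r := List.replicate_add _ _ _
  rw [e, rext_append, (rsec_zr3 j s).2] at h
  interval_cases r
  · simp
  · exfalso; revert s; decide
  · exfalso; revert s; decide

theorem sec_zr3 (j : ℕ) (s : Fin 3) :
    sec (zr (3 * j)) s = zr (2 * j) ∧ ext (zr (3 * j)) s = s := by
  induction j with
  | zero => exact ⟨rfl, rfl⟩
  | succ j ih =>
    have h : zr (3 * (j + 1)) = [false, false, false] ++ zr (3 * j) := by
      show List.replicate (3 * j + 1 + 1 + 1) false = _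
      rfl
    have h1 : ∀ s : Fin 3, sec [false, false, false] s = [false, false] ∧
        ext [false, false, false] s = s := by decide
    rw [h, sec_append, ext_append, (h1 s).1, (h1 s).2, ih.1, ih.2]
    exact ⟨rfl, rfl⟩

theorem ext_zr_mod (n : ℕ) (s : Fin 3) (h : ext (zr n) s = s) : 3 ∣ n := by
  obtain ⟨j, r, hr, rfl⟩ : ∃ j r, r < 3 ∧ n = 3 * j + r := ⟨n / 3, n % 3, Nat.mod_lt _ (by norm_num),
    (Nat.div_add_mod n 3).symm⟩
  have e : zr (3 * j + r) = zr (3 * j) ++ zr r := List.replicate_add _ _ _
  rw [e, ext_append, (sec_zr3 j s).2] at h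
  interval_cases r
  · simp
  · exfalso; revert s; decide
  · exfalso; revert s; decide

theorem act_zr_faithful : ∀ (v : List (Fin 3)) (n : ℕ), act v (zr n) = v → 3 ^ v.length ∣ n := by
  intro v
  induction v with
  | nil => intro n _; simp
  | cons s v ih =>
    intro n h
    simp only [act, List.cons.injEq] at h
    obtain ⟨j, rfl⟩ := ext_zr_mod n s h.1
    rw [(sec_zr3 j s).1] at h
    have h2 := ih _ h.2
    have h3 : 3 ^ v.length ∣ j := by
      have hc : Nat.Coprime (3 ^ v.length) 2 := Nat.Coprime.pow_left _ (by norm_num)
      exact hc.dvd_of_dvd_mul_left h2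
    rw [List.length_cons, pow_succ, mul_comm]
    exact Nat.mul_dvd_mul_left 3 h3

theorem ract_zr_faithful (v : List (Fin 3)) (n : ℕ) (h : ract v (zr n) = v) :
    3 ^ v.length ∣ n := by
  cases v with
  | nil => simp
  | cons s v =>
    simp only [ract, List.cons.injEq] at h
    obtain ⟨j, rfl⟩ := rext_zr_mod n s h.1
    rw [(rsec_zr3 j s).1] at h
    have h2 := act_zr_faithful _ _ h.2
    rw [List.length_cons, pow_succ, mul_comm]
    exact Nat.mul_dvd_mul_left 3 h2

theorem ract_zr_pow (v : List (Fin 3)) (k : ℕ) (hk : v.length ≤ k) : ract v (zr (3 ^ k)) = v := by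
  cases v with
  | nil => rfl
  | cons s v =>
    obtain ⟨k, rfl⟩ : ∃ k', k = k' + 1 := ⟨k - 1, by simp at hk; omega⟩
    have e : 3 ^ (k + 1) = 3 * 3 ^ k := by ring
    simp only [ract]
    rw [e, (rsec_zr3 _ s).1, (rsec_zr3 _ s).2, ← rep_false, act_rep_pow k v (by simpa using hk)]

theorem zr_add (m n : ℕ) : zr (m + n) = zr m ++ zr n := List.replicate_add _ _ _

theorem ract_zr_mul (v : List (Fin 3)) (k : ℕ) (hk : v.length ≤ k) (j : ℕ) :
    ract v (zr (3 ^ k * j)) = v := by
  induction j with
  | zero =>
    cases v with
    | nil => rfl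
    | cons s v => simp [ract, rext, rsec, act_nil]
  | succ j ih => rw [Nat.mul_succ, zr_add, ract_append, ih, ract_zr_pow v k hk]

theorem ract_zr_congr (v : List (Fin 3)) (k : ℕ) (hk : v.length ≤ k) {m n : ℕ}
    (h : m ≡ n [MOD 3 ^ k]) : ract v (zr m) = ract v (zr n) := by
  have key : ∀ n : ℕ, ract v (zr n) = ract v (zr (n % 3 ^ k)) := by
    intro n
    conv_lhs => rw [← Nat.div_add_mod n (3 ^ k)]
    rw [zr_add, ract_append, ract_zr_mul v k hk]
  rw [key m, key n, h]

theorem ract_zr_inj (v : List (Fin 3)) {m n : ℕ} (h : ract v (zr m) = ract v (zr n)) :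
    m ≡ n [MOD 3 ^ v.length] := by
  have key : ∀ (m n : ℕ), m ≤ n → ract v (zr m) = ract v (zr n) → m ≡ n [MOD 3 ^ v.length] := by
    intro m n hmn h
    obtain ⟨d, rfl⟩ := Nat.exists_eq_add_of_le hmn
    rw [zr_add, ract_append] at h
    have h2 := ract_zr_faithful _ _ h.symm
    rw [ract_length] at h2
    have := (Nat.modEq_zero_iff_dvd.2 h2).symm
    calc m = m + 0 := rfl
      _ ≡ m + d [MOD 3 ^ v.length] := Nat.ModEq.add_left m this
  rcases le_total m n with h1 | h1
  · exact key m n h1 h
  · exact (key n m h1 h.symm).symm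

/-! ## the profile of the process -/

/-- the state at the beginning of the pass `t` -/
def sg (w : List Bool) : ℕ → Fin 3
  | 0 => 0
  | t + 1 => (st w t).2

/-- the profile of the first `t` passes -/
def X (w : List Bool) (t : ℕ) : List (Fin 3) := (List.range t).map (sg w)

theorem X_length (w : List Bool) (t : ℕ) : (X w t).length = t := by simp [X]

theorem range_map_succ (f : ℕ → Fin 3) (t : ℕ) :
    (List.range (t + 1)).map f = f 0 :: (List.range t).map (fun j => f (j + 1)) := by
  rw [List.range_succ_eq_map, List.map_cons, List.map_map]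
  rfl

theorem act_seq (t : ℕ) : ∀ f : ℕ → List Bool × Fin 3,
    (∀ i, f (i + 1) = (sec (f i).1 (f i).2, ext (f i).1 (f i).2)) →
    act ((List.range t).map (fun i => (f i).2)) (f 0).1 =
      (List.range t).map (fun i => (f (i + 1)).2) ∧
    secs (f 0).1 ((List.range t).map (fun i => (f i).2)) = (f t).1 := by
  induction t with
  | zero => intro f _; exact ⟨rfl, rfl⟩
  | succ t ih =>
    intro f hf
    have h := ih (fun i => f (i + 1)) (fun i => hf (i + 1))
    have h1 : (f 1).1 = sec (f 0).1 (f 0).2 := by rw [hf 0]
    have h2 : (f 1).2 = ext (f 0).1 (f 0).2 := by rw [hf 0]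
    rw [range_map_succ, range_map_succ]
    simp only [act, secs]
    rw [← h1, ← h2]
    exact ⟨by rw [h.1], h.2⟩

theorem act_st (w : List Bool) (t : ℕ) :
    act ((List.range t).map (fun i => (st w i).2)) (rsec w 0) =
      (List.range t).map (fun i => (st w (i + 1)).2) ∧
    secs (rsec w 0) ((List.range t).map (fun i => (st w i).2)) = (st w t).1 :=
  act_seq t (st w) (fun _ => rfl)

theorem X_cons (w : List Bool) (t : ℕ) :
    X w (t + 1) = 0 :: (List.range t).map (fun i => (st w i).2) := by
  unfold X
  rw [range_map_succ]
  rfl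

theorem X_succ (w : List Bool) (t : ℕ) : X w (t + 1) = 0 :: ract (X w t) w := by
  cases t with
  | zero => rfl
  | succ t =>
    rw [X_cons, X_cons, range_map_succ]
    simp only [ract]
    rw [(act_st w t).1]
    rfl

theorem rsecs_X (w : List Bool) (t : ℕ) : rsecs w (X w (t + 1)) = (st w t).1 := by
  rw [X_cons]
  exact (act_st w t).2

theorem X_snoc (w : List Bool) (t : ℕ) : X w (t + 1) = X w t ++ [sg w t] := by
  unfold X
  rw [List.range_succ, List.map_append]
  rfl

theorem run_of_dead {w : List Bool} {t : ℕ} (h : true ∉ rsecs w (X w (t + 1))) :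
    run (2 ^ (t + 2) * w.length + 1) w = none := by
  rw [rsecs_X] at h
  exact time_of_dead h

end Pool.Agent.Helper34.SD
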