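import Pool.Agent.Helper34.SD.Defs

/-!
# Post's tag system (MP_41f897_lc): the process in passes, with the number of steps

The first part is module DY of the project (written by helper45).
-/

set_option autoImplicit false

namespace Pool.Agent.Helper34.SD

open Pool.Agent.Helper34.PT

/-- one block, no condition on the length of the rest -/
private theorem block' (c : Bool) (s : Fin 3) (Z : List Bool) :
    run (out c s).length ((bin [c] ++ Z).drop s) = none ∨
    run (out c s).length ((bin [c] ++ Z).drop s) =
      some ((Z ++ bin (out c s)).drop (nxt c s)) := by
  match Z with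
  | [] => cases c <;> fin_cases s <;> simp [out, nxt, bin, run, step]
  | [z] => cases c <;> fin_cases s <;> simp [out, nxt, bin, run, step]
  | z1 :: z2 :: Z => exact Or.inr (run_block c s (z1 :: z2 :: Z) (by simp))

private theorem bind_step {m n : ℕ} {w w' : List Bool} {r : Option (List Bool)}
    (h : run m w = none ∨ run m w = some w') (h' : run n w' = none ∨ run n w' = r) :
    run (m + n) w = none ∨ run (m + n) w = r := by
  rw [run_add]
  rcases h with h | h
  · left
    rw [h]
    rfl
  · rw [h]
    exact h'

private theorem word' (W : List Bool) : ∀ (s : Fin 3) (Z : List Bool),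
    run (sec W s).length ((bin W ++ Z).drop s) = none ∨
    run (sec W s).length ((bin W ++ Z).drop s) =
      some ((Z ++ bin (sec W s)).drop (ext W s)) := by
  induction W with
  | nil =>
    intro s Z
    right
    simp [sec, ext, bin, run]
  | cons c W ih =>
    intro s Z
    simp only [sec, ext, List.length_append]
    have hb : bin (c :: W) ++ Z = bin [c] ++ (bin W ++ Z) := by
      have : c :: W = [c] ++ W := rfl
      rw [this, bin_append, List.append_assoc]
    rw [hb, bin_append, ← List.append_assoc Z]
    refine bind_step (block' c s (bin W ++ Z)) ?_
    rw [List.append_assoc]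
    exact ih (nxt c s) (Z ++ bin (out c s))

private theorem raw' (w : List Bool) : ∀ (s : Fin 3) (Z : List Bool),
    run (rsec w s).length ((w ++ Z).drop s) = none ∨
    run (rsec w s).length ((w ++ Z).drop s) =
      some ((Z ++ bin (rsec w s)).drop (rext w s)) := by
  induction w with
  | nil =>
    intro s Z
    right
    simp [rsec, rext, bin, run]
  | cons c w ih =>
    intro s Z
    simp only [rsec, rext, List.cons_append]
    by_cases hs : s = 0
    · subst hs
      rw [if_pos rfl, List.length_append, bin_append, ← List.append_assoc Z]
      have h2 : ((0 : Fin 3) + 2 : Fin 3) = 2 := by decide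
      rw [h2]
      have h3 := ih 2 (Z ++ bin [c])
      refine bind_step (w' := (w ++ (Z ++ bin [c])).drop ((2 : Fin 3) : ℕ)) ?_ h3
      have h4 : w ++ (Z ++ bin [c]) = (w ++ Z) ++ bin [c] := by rw [List.append_assoc]
      rw [h4]
      generalize w ++ Z = Y
      match Y with
      | [] => cases c <;> simp [bin, run, step]
      | [z] => cases c <;> simp [bin, run, step]
      | z1 :: z2 :: Y => cases c <;> simp [bin, run, step]
    · rw [if_neg hs, List.nil_append]
      have h1 : (c :: (w ++ Z)).drop (s : ℕ) = (w ++ Z).drop ((s + 2 : Fin 3) : ℕ) := by
        revert hs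
        fin_cases s
        · intro hs
          exact absurd rfl hs
        · intro _
          rfl
        · intro _
          rfl
      rw [h1]
      exact ih (s + 2) Z

theorem run_mono {t s : ℕ} {w : List Bool} (h : run t w = none) (hts : t ≤ s) :
    run s w = none := by
  obtain ⟨d, rfl⟩ := Nat.exists_eq_add_of_le hts
  rw [run_add, h]
  rfl

theorem rsec_length (w : List Bool) : ∀ s : Fin 3, (rsec w s).length ≤ w.length := by
  induction w with
  | nil => intro s; simp [rsec]
  | cons c w ih =>
    intro s
    have h := ih (s + 2)
    simp only [rsec, List.length_append, List.length_cons]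
    split_ifs <;> simp <;> omega

theorem sec_length_le (W : List Bool) : ∀ s : Fin 3, (sec W s).length ≤ 2 * W.length := by
  induction W with
  | nil => intro s; simp [sec]
  | cons c W ih =>
    intro s
    have h := ih (nxt c s)
    have h1 : (out c s).length ≤ 2 := by
      cases c <;> fin_cases s <;> simp [out]
    simp only [sec, List.length_append, List.length_cons]
    omega

theorem st_length (w : List Bool) (t : ℕ) : (st w t).1.length ≤ 2 ^ t * w.length := by
  induction t with
  | zero => simpa [st] using rsec_length w 0
  | succ t ih =>
    have h := sec_length_le (st w t).1 (st w t).2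
    calc (st w (t + 1)).1.length ≤ 2 * (st w t).1.length := h
      _ ≤ 2 * (2 ^ t * w.length) := by omega
      _ = 2 ^ (t + 1) * w.length := by ring

theorem passes (w : List Bool) (t : ℕ) : ∃ n : ℕ, n ≤ 2 ^ (t + 1) * w.length ∧
    (run n w = none ∨ run n w = some ((bin (st w t).1).drop ((st w t).2 : ℕ))) := by
  induction t with
  | zero =>
    refine ⟨(rsec w 0).length, ?_, ?_⟩
    · have := rsec_length w 0
      omega
    · have h := raw' w 0 []
      rw [List.append_nil, List.nil_append] at h
      exact h
  | succ t ih =>
    obtain ⟨n, hn1, hn⟩ := ih
    refine ⟨n + (sec (st w t).1 (st w t).2).length, ?_, ?_⟩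
    · have h := st_length w (t + 1)
      have h2 : (sec (st w t).1 (st w t).2).length ≤ 2 ^ (t + 1) * w.length := h
      have h3 : 2 ^ (t + 1 + 1) * w.length = 2 ^ (t + 1) * w.length + 2 ^ (t + 1) * w.length := by
        ring
      omega
    · refine bind_step hn ?_
      have h := word' (st w t).1 (st w t).2 []
      rw [List.append_nil, List.nil_append] at h
      exact h

theorem bin_false' (W : List Bool) (h : true ∉ W) :
    bin W = List.replicate (2 * W.length) false := by
  induction W with
  | nil => rfl
  | cons c W ih =>
    cases c with
    | true => exact absurd List.mem_cons_self h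
    | false =>
      have h1 := ih fun h' => h (List.mem_cons_of_mem _ h')
      rw [bin, h1]
      have e : 2 * (false :: W).length = 2 * W.length + 1 + 1 := by simp; ring
      rw [e]
      rfl

theorem run_zeros (N : ℕ) : run (N + 1) (List.replicate N false) = none := by
  induction N with
  | zero => rfl
  | succ N ih =>
    match N, ih with
    | 0, _ => rfl
    | 1, _ => rfl
    | N + 2, ht =>
      have h1 : step (List.replicate (N + 2 + 1) false) = some (List.replicate (N + 2) false) := by
        have h2 : List.replicate (N + 2) false = List.replicate N false ++ [false, false] := by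
          rw [List.replicate_add]
          rfl
        rw [h2]
        simp [List.replicate_succ, step]
      show (step (List.replicate (N + 2 + 1) false)).bind (run (N + 2 + 1)) = none
      rw [h1]
      exact ht

/-- if the letter `b` is absent after the pass `t`, the process stops in linear time -/
theorem time_of_dead {w : List Bool} {t : ℕ} (h : true ∉ (st w t).1) :
    run (2 ^ (t + 2) * w.length + 1) w = none := by
  obtain ⟨n, hn1, hn⟩ := passes w t
  have e : 2 ^ (t + 2) * w.length = 2 ^ (t + 1) * w.length + 2 * (2 ^ t * w.length) := by ring
  rcases hn with hn | hn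
  · exact run_mono hn (by omega)
  · rw [bin_false' _ h, List.drop_replicate] at hn
    have hl := st_length w t
    refine run_mono (t := n + (2 * (st w t).1.length - ((st w t).2 : ℕ) + 1)) ?_ (by omega)
    rw [run_add, hn]
    exact run_zeros _

end Pool.Agent.Helper34.SD
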